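import Pool.Agent.helper20.HP.Defs3
import Pool.Agent.helper20.HP.S0
import Pool.Agent.helper39.HP.LM1

/-! # Module M1 : Theorem M from flat windows and macroscopic shifts.
Uses from S0: par_eventually, tmix_small. Local stub LM1 (not landed): flat_of_EQ (module F2), macro_shift (module MA). -/

open scoped BigOperators Topology
open Filter MeasureTheory

namespace Pool.Agent.helper20.HP

/-- floor of a number at least one is at least its half -/
theorem M1_floor_ge (x : ℝ) (hx : 1 ≤ x) : x / 2 ≤ (⌊x⌋₊ : ℝ) := by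
  have h1 : (1 : ℝ) ≤ (⌊x⌋₊ : ℝ) := by
    have : 1 ≤ ⌊x⌋₊ := Nat.le_floor (by simpa using hx)
    exact_mod_cast this
  have h2 : x < (⌊x⌋₊ : ℝ) + 1 := Nat.lt_floor_add_one x
  linarith

theorem M_of_EQ (hEQ : EQGoal) : MGoal := by
  intro S K hK A ε hε
  have hK' : ∀ k t x y, (K k).pt t x y = lazyP (S.G k) t x y := hK
  have ha0 : 0 < S.a := lt_min S.α_pos (by norm_num)
  have ha1 : S.a ≤ 1 / 4 := min_le_right _ _
  obtain ⟨δ, hδ, n0, hmac⟩ := macro_shift (max S.θ 1) A S.a (ε / 4) ha0 ha1 (by positivity)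
  refine ⟨δ, hδ, ?_⟩
  have hflat := flat_of_EQ hEQ S K hK A (ε / 4) (by positivity)
  have hpar := par_eventually S K hK'
  have hmix := tmix_small S 1 one_pos
  have hcard : ∀ᶠ k in atTop, max n0 1 ≤ Fintype.card (S.V k) := S.card.eventually_ge_atTop _
  filter_upwards [hflat, hpar, hmix, hcard] with k hfl hpa hmi hca
  intro Γ hΓ hΓl r r' hr hr' hrr
  have hn0 : n0 ≤ Fintype.card (S.V k) := le_trans (le_max_left _ _) hca
  have hn1 : 1 ≤ Fintype.card (S.V k) := le_trans (le_max_right _ _) hca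
  have hn1' : (1 : ℝ) ≤ (Fintype.card (S.V k) : ℝ) := by exact_mod_cast hn1
  have hx : (1 : ℝ) ≤ (Fintype.card (S.V k) : ℝ) ^ (1 / 2 - S.a / 8) :=
    Real.one_le_rpow hn1' (by linarith)
  set w := wd (Fintype.card (S.V k)) S.a with hw
  have hw1 : (Fintype.card (S.V k) : ℝ) ^ (1 / 2 - S.a / 8) / 2 ≤ (w : ℝ) := M1_floor_ge _ hx
  have hw2 : (w : ℝ) ≤ 2 * (Fintype.card (S.V k) : ℝ) ^ (1 / 2 - S.a / 8) := by
    have : (w : ℝ) ≤ (Fintype.card (S.V k) : ℝ) ^ (1 / 2 - S.a / 8) :=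
      Nat.floor_le (le_trans zero_le_one hx)
    linarith
  have hwpos : (0 : ℝ) < w := by linarith
  have hmi' : ((tmix (S.G k) + 1 : ℕ) : ℝ) ≤ (Fintype.card (S.V k) : ℝ) ^ (1 / 2 - S.a) := by
    have := hmi
    rw [one_mul] at this
    exact this
  have hm := hmac (S.V k) (K k) (tmix (S.G k) + 1) hpa hn0 hmi' Γ hΓ hΓl w hw1 hw2 r r' hr hr' hrr
  have key : ∀ q : ℕ, (q : ℝ) ≤ A * Nat.sqrt (Fintype.card (S.V k)) →
      |∑ y ∈ Finset.range w, Phi (K k) Γ (q + y) - w * Phi (K k) Γ q|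
        ≤ w * (ε / 4 * Nat.sqrt (Fintype.card (S.V k))) := by
    intro q hq
    have e : ∑ y ∈ Finset.range w, Phi (K k) Γ (q + y) - w * Phi (K k) Γ q
        = ∑ y ∈ Finset.range w, (Phi (K k) Γ (q + y) - Phi (K k) Γ q) := by
      rw [Finset.sum_sub_distrib, Finset.sum_const, Finset.card_range, nsmul_eq_mul]
    rw [e]
    refine le_trans (Finset.abs_sum_le_sum_abs _ _) ?_
    refine le_trans (Finset.sum_le_card_nsmul _ _ (ε / 4 * Nat.sqrt (Fintype.card (S.V k))) ?_) ?_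
    · intro y hy
      exact hfl Γ hΓ hΓl q y hq (Finset.mem_range.1 hy)
    · rw [Finset.card_range, nsmul_eq_mul]
  have k1 := key r hr
  have k2 := key r' hr'
  set P := ∑ y ∈ Finset.range w, Phi (K k) Γ (r + y)
  set P' := ∑ y ∈ Finset.range w, Phi (K k) Γ (r' + y)
  set L : ℝ := (Nat.sqrt (Fintype.card (S.V k)) : ℝ) with hL
  have hL0 : 0 ≤ L := Nat.cast_nonneg _
  have hfin : (w : ℝ) * |Phi (K k) Γ r - Phi (K k) Γ r'| ≤ w * (ε * L) := by
    rw [← abs_of_pos hwpos, ← abs_mul, abs_of_pos hwpos]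
    rw [abs_le] at k1 k2 hm ⊢
    have : 0 ≤ (w : ℝ) * (ε * L) := by positivity
    constructor <;> nlinarith [k1.1, k1.2, k2.1, k2.2, hm.1, hm.2]
  exact le_of_mul_le_mul_left hfin hwpos

end Pool.Agent.helper20.HP
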