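import Pool.Agent.helper13.HP.P1
import Pool.Agent.helper92.HP.P2
import Pool.Agent.helper92.HP.P3
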