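import Pool.Agent.helper20.HP.Defs3
import Pool.Agent.helper20.HP.S0
import Pool.Agent.helper39.HP.LP4

/-! # Module P4 : positivity of kap.
Uses from S0: A1 (indicators), A3 (lel_le), A6 (letters). Local stub LP4 (not landed): P1 (chunks), P2 (Ev_of_pair),
P3 (EL_Cs, EL_NoRet, EL_Hs, EL_pair). -/

open scoped BigOperators Topology
open Filter MeasureTheory

namespace Pool.Agent.helper20.HP

section
variable {V : Type} [Fintype V] [DecidableEq V] {K : HW V} {θ : ℝ} {h : ℕ}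

omit [Fintype V] [DecidableEq V] in
theorem P4_card_filter {ι : Type*} (s : Finset ι) (p : ι → Prop) [DecidablePred p] :
    ((s.filter p).card : ℝ) = ∑ x ∈ s, ind (p x) := by
  rw [Finset.card_filter]
  push_cast
  refine Finset.sum_congr rfl fun x _ => ?_
  unfold ind
  split_ifs <;> rfl

open Classical in
/-- deterministic counting -/
theorem P4_det (o : V) (b B0 v Mc : ℕ) (hb : 1 ≤ b) (hv : 1 ≤ v) (Y F : List (Aut K))
    (hY : Y.length = b + B0 + b) (hF : F.length = b) :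
    ∑ s ∈ Finset.range (B0 + 1), ind (Cs K o b s Y F) ≤
      ∑ j ∈ Finset.Icc 1 Mc, ∑ s ∈ Finset.range (B0 + 1), ∑ s' ∈ Finset.range (B0 + 1),
        ind (s < s' ∧ Ev K o b (j * v) ((Y.drop s).take b) ((Y.drop (b + s)).take (s' - s)) F)
      + ∑ s ∈ Finset.range (B0 + 1), ind (¬ Hs K o b s Y F)
      + (((B0 : ℝ) + 1) / ((Mc : ℝ) + 1) + v)
      + ((B0 : ℝ) + 1) * ind (¬ NoRet b (o :: vp o 1 (Y.take (b + B0)))) := by
  have hT0 : 0 ≤ ∑ j ∈ Finset.Icc 1 Mc, ∑ s ∈ Finset.range (B0 + 1), ∑ s' ∈ Finset.range (B0 + 1),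
        ind (s < s' ∧ Ev K o b (j * v) ((Y.drop s).take b) ((Y.drop (b + s)).take (s' - s)) F) :=
    Finset.sum_nonneg fun _ _ => Finset.sum_nonneg fun _ _ => Finset.sum_nonneg fun _ _ =>
      ind_nonneg _
  have hH0 : 0 ≤ ∑ s ∈ Finset.range (B0 + 1), ind (¬ Hs K o b s Y F) :=
    Finset.sum_nonneg fun _ _ => ind_nonneg _
  have hq0 : 0 ≤ ((B0 : ℝ) + 1) / ((Mc : ℝ) + 1) + v := by positivity
  by_cases hN : NoRet b (o :: vp o 1 (Y.take (b + B0)))
  swap
  · rw [ind_true hN, mul_one]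
    have : ∑ s ∈ Finset.range (B0 + 1), ind (Cs K o b s Y F) ≤ (B0 : ℝ) + 1 := by
      refine le_trans (Finset.sum_le_sum (fun s _ => ind_le_one _)) ?_
      simp
    linarith
  have hN' : ind (¬ NoRet b (o :: vp o 1 (Y.take (b + B0)))) = 0 := ind_false (not_not.2 hN)
  rw [hN', mul_zero, add_zero]
  set G : Finset ℕ := (Finset.range (B0 + 1)).filter (fun s => Cs K o b s Y F ∧ Hs K o b s Y F)
    with hG
  have hpair : ∀ s ∈ G, ∀ s' ∈ G, s < s' →
      Ev K o b (lel o (vp o 1 ((Y.drop (b + s)).take (s' - s)))) ((Y.drop s).take b)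
        ((Y.drop (b + s)).take (s' - s)) F ∧
      lam K o b s' Y = lam K o b s Y + lel o (vp o 1 ((Y.drop (b + s)).take (s' - s))) ∧
      1 ≤ lel o (vp o 1 ((Y.drop (b + s)).take (s' - s))) := by
    intro s hs s' hs' hss
    rw [hG, Finset.mem_filter, Finset.mem_range] at hs hs'
    exact Ev_of_pair o b B0 hb Y F hY hF hN s s' hss (by omega) hs.2.1 hs'.2.1 hs'.2.2
  have hmono : ∀ s ∈ G, ∀ s' ∈ G, s < s' → lam K o b s Y < lam K o b s' Y := by
    intro s hs s' hs' hss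
    obtain ⟨-, h2, h3⟩ := hpair s hs s' hs' hss
    omega
  have hinj : Set.InjOn (fun s => lam K o b s Y) (G : Set ℕ) := by
    intro s hs s' hs' he
    rcases lt_trichotomy s s' with hlt | heq | hgt
    · exact absurd he (ne_of_lt (hmono s hs s' hs' hlt))
    · exact heq
    · exact absurd he (ne_of_gt (hmono s' hs' s hs hgt))
  set Λ : Finset ℕ := G.image (fun s => lam K o b s Y) with hΛ
  have hΛc : Λ.card = G.card := Finset.card_image_of_injOn hinj
  have hΛb : ∀ a ∈ Λ, a ≤ B0 := by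
    intro a ha
    rw [hΛ, Finset.mem_image] at ha
    obtain ⟨s, hs, rfl⟩ := ha
    rw [hG, Finset.mem_filter, Finset.mem_range] at hs
    refine le_trans (lel_le _ _) ?_
    rw [vp_length, List.length_take]
    omega
  have hch := chunks Λ B0 v Mc hΛb hv
  -- the set of triples
  set T : Finset (ℕ × ℕ × ℕ) := ((Finset.Icc 1 Mc) ×ˢ (Finset.range (B0 + 1) ×ˢ
      Finset.range (B0 + 1))).filter (fun t => t.2.1 < t.2.2 ∧
        Ev K o b (t.1 * v) ((Y.drop t.2.1).take b) ((Y.drop (b + t.2.1)).take (t.2.2 - t.2.1)) F)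
    with hT
  have hTsum : (T.card : ℝ) = ∑ j ∈ Finset.Icc 1 Mc, ∑ s ∈ Finset.range (B0 + 1),
      ∑ s' ∈ Finset.range (B0 + 1),
        ind (s < s' ∧ Ev K o b (j * v) ((Y.drop s).take b) ((Y.drop (b + s)).take (s' - s)) F) := by
    rw [hT, P4_card_filter, Finset.sum_product]
    refine Finset.sum_congr rfl fun j _ => ?_
    rw [Finset.sum_product]
  have hcard : ∀ D : DecidablePred (fun a' : ℕ => ∃ j ∈ Finset.Icc 1 Mc, ∃ a ∈ Λ, a' = a + j * v),
      (@Finset.filter ℕ _ D Λ).card ≤ T.card := by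
    intro D
    refine Finset.card_le_card_of_surjOn (fun t => lam K o b t.2.2 Y) ?_
    intro a' ha'
    rw [Finset.mem_coe, Finset.mem_filter] at ha'
    obtain ⟨ha1, j, hj, a, ha, he⟩ := ha'
    rw [hΛ, Finset.mem_image] at ha1 ha
    obtain ⟨s', hs', rfl⟩ := ha1
    obtain ⟨s, hs, rfl⟩ := ha
    have hj1 := (Finset.mem_Icc.1 hj).1
    have hjv : 1 ≤ j * v := Nat.mul_le_mul hj1 hv
    have hlt : s < s' := by
      rcases lt_trichotomy s s' with hlt | heq | hgt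
      · exact hlt
      · subst heq
        omega
      · have := hmono s' hs' s hs hgt
        omega
    obtain ⟨h1, h2, h3⟩ := hpair s hs s' hs' hlt
    have hg : lel o (vp o 1 ((Y.drop (b + s)).take (s' - s))) = j * v := by
      omega
    rw [hg] at h1
    refine ⟨(j, s, s'), ?_, rfl⟩
    rw [Finset.mem_coe, hT, Finset.mem_filter, Finset.mem_product, Finset.mem_product]
    rw [hG, Finset.mem_filter] at hs hs'
    exact ⟨⟨hj, hs.1, hs'.1⟩, hlt, h1⟩
  have hGc : ∑ s ∈ Finset.range (B0 + 1), ind (Cs K o b s Y F)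
      ≤ (G.card : ℝ) + ∑ s ∈ Finset.range (B0 + 1), ind (¬ Hs K o b s Y F) := by
    have : (G.card : ℝ) = ∑ s ∈ Finset.range (B0 + 1), ind (Cs K o b s Y F ∧ Hs K o b s Y F) := by
      rw [hG, P4_card_filter]
    rw [this, ← Finset.sum_add_distrib]
    refine Finset.sum_le_sum fun s _ => ?_
    by_cases hHs : Hs K o b s Y F
    · rw [ind_false (not_not.2 hHs), add_zero]
      exact ind_mono fun hc => ⟨hc, hHs⟩
    · rw [ind_true hHs]
      have := ind_nonneg (Cs K o b s Y F ∧ Hs K o b s Y F)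
      have := ind_le_one (Cs K o b s Y F)
      linarith
  have hcard' := Nat.cast_le (α := ℝ).2 (hcard (fun a' => Classical.propDecidable _))
  rw [hΛc] at hch
  rw [← hTsum]
  linarith

theorem kap_pos (hP : Par K θ h) (o : V) (B0 v Mc : ℕ) (hv : 1 ≤ v)
    (hvB : 16 * θ ^ 2 * v ≤ (B0 : ℝ) + 1) (hMc : 16 * θ ^ 2 ≤ (Mc : ℝ) + 1)
    (hn : 48 * θ ^ 2 * ((B0 : ℝ) + 4 * h + 1) ^ 2 ≤ (Fintype.card V : ℝ)) :
    1 / (16 * θ ^ 2) ≤ ∑ j ∈ Finset.Icc 1 Mc, kap K o (2 * h) (j * v) B0 := by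
  have hθ : 0 < θ := lt_of_lt_of_le one_pos hP.one_le
  have hh := hP.h_pos
  have hn0 : (0 : ℝ) < (Fintype.card V : ℝ) := by
    have := hP.card_pos
    exact_mod_cast this
  set b := 2 * h with hb
  have hb1 : 1 ≤ b := by omega
  -- integrate the deterministic inequality
  have hint : EL K o (b + B0 + b) (fun Y => EL K o b (fun F =>
      ∑ s ∈ Finset.range (B0 + 1), ind (Cs K o b s Y F))) ≤
    EL K o (b + B0 + b) (fun Y => EL K o b (fun F =>
      ∑ j ∈ Finset.Icc 1 Mc, ∑ s ∈ Finset.range (B0 + 1), ∑ s' ∈ Finset.range (B0 + 1),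
        ind (s < s' ∧ Ev K o b (j * v) ((Y.drop s).take b) ((Y.drop (b + s)).take (s' - s)) F)
      + ∑ s ∈ Finset.range (B0 + 1), ind (¬ Hs K o b s Y F)
      + (((B0 : ℝ) + 1) / ((Mc : ℝ) + 1) + v)
      + ((B0 : ℝ) + 1) * ind (¬ NoRet b (o :: vp o 1 (Y.take (b + B0)))))) := by
    refine EL_mono _ _ _ fun Y hY => EL_mono _ _ _ fun F hF => ?_
    exact P4_det o b B0 v Mc hb1 hv Y F hY hF
  simp only [EL_add, EL_sum, EL_const, EL_mul_left] at hint
  -- lower bound of the left side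
  have hL : ((B0 : ℝ) + 1) * (1 / (4 * θ ^ 2)) ≤ ∑ s ∈ Finset.range (B0 + 1),
      EL K o (b + B0 + b) (fun Y => EL K o b (fun F => ind (Cs K o b s Y F))) := by
    have : ((B0 : ℝ) + 1) * (1 / (4 * θ ^ 2)) = ∑ s ∈ Finset.range (B0 + 1), 1 / (4 * θ ^ 2) := by
      rw [Finset.sum_const, Finset.card_range, nsmul_eq_mul]; push_cast; ring
    rw [this]
    exact Finset.sum_le_sum fun s hs => EL_Cs hP o B0 s (by rw [Finset.mem_range] at hs; omega)
  have hHs : ∑ s ∈ Finset.range (B0 + 1),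
      EL K o (b + B0 + b) (fun Y => EL K o b (fun F => ind (¬ Hs K o b s Y F)))
      ≤ ((B0 : ℝ) + 1) * (((B0 : ℝ) * (2 * h)) * (3 / (2 * (Fintype.card V : ℝ)))) := by
    have : ((B0 : ℝ) + 1) * (((B0 : ℝ) * (2 * h)) * (3 / (2 * (Fintype.card V : ℝ))))
        = ∑ s ∈ Finset.range (B0 + 1), ((B0 : ℝ) * (2 * h)) * (3 / (2 * (Fintype.card V : ℝ))) := by
      rw [Finset.sum_const, Finset.card_range, nsmul_eq_mul]; push_cast; ring
    rw [this]
    exact Finset.sum_le_sum fun s hs => EL_Hs hP o B0 s (by rw [Finset.mem_range] at hs; omega)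
  have hNR := EL_NoRet hP o B0
  rw [← hb] at hNR
  -- the main term
  have hmain : ∀ j : ℕ, ∑ s ∈ Finset.range (B0 + 1), ∑ s' ∈ Finset.range (B0 + 1),
      EL K o (b + B0 + b) (fun Y => EL K o b (fun F =>
        ind (s < s' ∧ Ev K o b (j * v) ((Y.drop s).take b) ((Y.drop (b + s)).take (s' - s)) F)))
      ≤ ((B0 : ℝ) + 1) * kap K o b (j * v) B0 := by
    intro j
    have : ((B0 : ℝ) + 1) * kap K o b (j * v) B0
        = ∑ s ∈ Finset.range (B0 + 1), kap K o b (j * v) B0 := by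
      rw [Finset.sum_const, Finset.card_range, nsmul_eq_mul]; push_cast; ring
    rw [this]
    refine Finset.sum_le_sum fun s hs => ?_
    set q : ℕ → ℝ := fun u => EL K o b (fun B => EL K o u (fun R => EL K o b (fun F =>
      ind (Ev K o b (j * v) B R F)))) with hq
    have hq0 : ∀ u, 0 ≤ q u := fun u => EL_nonneg _ _ _ fun _ _ => EL_nonneg _ _ _ fun _ _ =>
      EL_nonneg _ _ _ fun _ _ => ind_nonneg _
    have h1 : ∀ s' ∈ Finset.range (B0 + 1), EL K o (b + B0 + b) (fun Y => EL K o b (fun F =>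
        ind (s < s' ∧ Ev K o b (j * v) ((Y.drop s).take b) ((Y.drop (b + s)).take (s' - s)) F)))
        = if s < s' then q (s' - s) else 0 := by
      intro s' hs'
      split_ifs with hlt
      · rw [hq]
        simp only
        rw [← EL_pair K o b (j * v) B0 s s' hlt.le (by rw [Finset.mem_range] at hs'; omega)]
        refine EL_congr _ _ _ fun Y _ => EL_congr _ _ _ fun F _ => ?_
        exact ind_congr ⟨fun hx => hx.2, fun hx => ⟨hlt, hx⟩⟩
      · rw [← EL_const K o (b + B0 + b) 0]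
        refine EL_congr _ _ _ fun Y _ => ?_
        rw [← EL_const K o b 0]
        exact EL_congr _ _ _ fun F _ => ind_false fun hx => hlt hx.1
    rw [Finset.sum_congr rfl h1, ← Finset.sum_filter]
    have h2 : ∑ s' ∈ (Finset.range (B0 + 1)).filter (fun s' => s < s'), q (s' - s)
        = ∑ u ∈ ((Finset.range (B0 + 1)).filter (fun s' => s < s')).image (fun s' => s' - s), q u := by
      rw [Finset.sum_image]
      intro x hx y hy hxy
      rw [Finset.mem_coe, Finset.mem_filter] at hx hy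
      simp only at hxy
      omega
    rw [h2]
    refine Finset.sum_le_sum_of_subset_of_nonneg ?_ fun u _ _ => hq0 u
    intro u hu
    rw [Finset.mem_image] at hu
    obtain ⟨s', hs', rfl⟩ := hu
    rw [Finset.mem_filter, Finset.mem_range] at hs'
    rw [Finset.mem_range]
    omega
  have hmain' : ∑ j ∈ Finset.Icc 1 Mc, ∑ s ∈ Finset.range (B0 + 1), ∑ s' ∈ Finset.range (B0 + 1),
      EL K o (b + B0 + b) (fun Y => EL K o b (fun F =>
        ind (s < s' ∧ Ev K o b (j * v) ((Y.drop s).take b) ((Y.drop (b + s)).take (s' - s)) F)))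
      ≤ ((B0 : ℝ) + 1) * ∑ j ∈ Finset.Icc 1 Mc, kap K o b (j * v) B0 := by
    rw [Finset.mul_sum]
    exact Finset.sum_le_sum fun j _ => hmain j
  -- numerical part
  set n : ℝ := (Fintype.card V : ℝ) with hn'
  set Sk := ∑ j ∈ Finset.Icc 1 Mc, kap K o b (j * v) B0 with hSk
  have hB : (0 : ℝ) < (B0 : ℝ) + 1 := by positivity
  have hh0 : (0 : ℝ) ≤ (h : ℝ) := Nat.cast_nonneg _
  have hB0 : (0 : ℝ) ≤ (B0 : ℝ) := Nat.cast_nonneg _
  have hall : ((B0 : ℝ) + 1) * (1 / (4 * θ ^ 2)) ≤ ((B0 : ℝ) + 1) * Sk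
      + ((B0 : ℝ) + 1) * (((B0 : ℝ) * (2 * h)) * (3 / (2 * n)))
      + (((B0 : ℝ) + 1) / ((Mc : ℝ) + 1) + v)
      + ((B0 : ℝ) + 1) * (((B0 : ℝ) + 2 * h + 1) ^ 2 * (3 / (2 * n))) := by
    have h3 : ((B0 : ℝ) + 1) * EL K o (b + B0 + b)
        (fun Y => ind (¬ NoRet b (o :: vp o 1 (Y.take (b + B0)))))
        ≤ ((B0 : ℝ) + 1) * (((B0 : ℝ) + 2 * h + 1) ^ 2 * (3 / (2 * n))) :=
      mul_le_mul_of_nonneg_left hNR hB.le
    linarith
  -- the small terms
  have e1 : ((B0 : ℝ) + 1) / ((Mc : ℝ) + 1) ≤ ((B0 : ℝ) + 1) * (1 / (16 * θ ^ 2)) := by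
    rw [div_eq_mul_one_div]
    refine mul_le_mul_of_nonneg_left ?_ hB.le
    exact one_div_le_one_div_of_le (by positivity) hMc
  have e2 : (v : ℝ) ≤ ((B0 : ℝ) + 1) * (1 / (16 * θ ^ 2)) := by
    rw [mul_one_div, le_div_iff₀ (by positivity)]
    linarith
  have e3 : ((B0 : ℝ) * (2 * h)) * (3 / (2 * n)) + ((B0 : ℝ) + 2 * h + 1) ^ 2 * (3 / (2 * n))
      ≤ 1 / (32 * θ ^ 2) := by
    have : ((B0 : ℝ) * (2 * h)) * (3 / (2 * n)) + ((B0 : ℝ) + 2 * h + 1) ^ 2 * (3 / (2 * n))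
        = ((B0 : ℝ) * (2 * h) + ((B0 : ℝ) + 2 * h + 1) ^ 2) * 3 / (2 * n) := by ring
    rw [this, div_le_div_iff₀ (by positivity) (by positivity)]
    have h4 : (B0 : ℝ) * (2 * h) + ((B0 : ℝ) + 2 * h + 1) ^ 2 ≤ ((B0 : ℝ) + 4 * h + 1) ^ 2 := by
      nlinarith
    have h5 : 48 * θ ^ 2 * ((B0 : ℝ) * (2 * h) + ((B0 : ℝ) + 2 * h + 1) ^ 2) ≤ n :=
      le_trans (mul_le_mul_of_nonneg_left h4 (by positivity)) hn
    linarith
  have e4 : (1 : ℝ) / (4 * θ ^ 2) = 4 * (1 / (16 * θ ^ 2)) := by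
    field_simp; norm_num
  have e5 : (1 : ℝ) / (32 * θ ^ 2) = (1 / 2) * (1 / (16 * θ ^ 2)) := by
    field_simp; norm_num
  have e0 : 0 < 1 / (16 * θ ^ 2) := by positivity
  set c := 1 / (16 * θ ^ 2) with hc
  have hdiv : ((B0 : ℝ) + 1) * c ≤ ((B0 : ℝ) + 1) * Sk := by
    have e3' : ((B0 : ℝ) + 1) * (((B0 : ℝ) * (2 * h)) * (3 / (2 * n)) +
        ((B0 : ℝ) + 2 * h + 1) ^ 2 * (3 / (2 * n))) ≤ ((B0 : ℝ) + 1) * ((1 / 2) * c) := by
      rw [← e5]
      exact mul_le_mul_of_nonneg_left e3 hB.le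
    rw [e4] at hall
    nlinarith
  exact le_of_mul_le_mul_left hdiv hB

end

end Pool.Agent.helper20.HP
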